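import Pool.Agent.U180.DP.Stm

/-!
# Project DP, package SQ: windows behind the squares
-/

set_option autoImplicit false

open MeasureTheory ProbabilityTheory Filter Topology

namespace Pool.Agent.U399.DP

open Pool.Agent.U180.DP

lemma void_anti {Ω : Type} (A : ℝ) (U : ℕ → Ω → ℝ) (x : ℝ) {y y' : ℝ} (h : y ≤ y') :
    void A U x y' ⊆ void A U x y := by
  intro ω hω p hp hx
  exact hω p hp ⟨hx.1, by linarith [hx.2]⟩

lemma tendsto_sq : Tendsto (fun n : ℕ => (n : ℝ) ^ 2) atTop atTop :=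
  (tendsto_pow_atTop (two_ne_zero)).comp tendsto_natCast_atTop_atTop

lemma log_sq (n : ℕ) : Real.log ((n : ℝ) ^ 2) = 2 * Real.log n := by
  rw [Real.log_pow]
  push_cast
  ring

lemma ev_log (K : ℝ) : ∀ᶠ n : ℕ in atTop, K ≤ Real.log n :=
  (Real.tendsto_log_atTop.comp tendsto_natCast_atTop_atTop).eventually_ge_atTop K

lemma ev_y (q : ℝ) (hq : 0 < q) : ∀ᶠ n : ℕ in atTop, 0 < q * Real.log n ^ 2 ∧
    q * Real.log n ^ 2 ≤ Real.log ((n : ℝ) ^ 2) ^ (3 : ℝ) := by
  filter_upwards [ev_log (q + 1)] with n hn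
  have hL : 0 < Real.log n := by linarith
  refine ⟨by positivity, ?_⟩
  rw [log_sq]
  have e : (2 * Real.log n) ^ (3 : ℝ) = 8 * Real.log n ^ 3 := by
    rw [show (3 : ℝ) = ((3 : ℕ) : ℝ) by norm_num, Real.rpow_natCast]
    ring
  rw [e]
  have h2 : 0 < Real.log n ^ 2 := by positivity
  nlinarith

lemma exp_eq (q s : ℝ) : (fun n : ℕ => Real.exp (-(s * (q * Real.log n ^ 2) /
    Real.log ((n : ℝ) ^ 2)))) =ᶠ[cofinite] fun n : ℕ => (n : ℝ) ^ (-(s * q / 2)) := by
  rw [Nat.cofinite_eq_atTop]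
  filter_upwards [ev_log 1, eventually_gt_atTop 0] with n hn hn0
  have hL : 0 < Real.log n := by linarith
  have hn' : (0 : ℝ) < n := by exact_mod_cast hn0
  rw [log_sq, Real.rpow_def_of_pos hn']
  congr 1
  field_simp

lemma ev_gap (q : ℝ) (hq : 0 < q) : ∀ᶠ n : ℕ in atTop,
    (n : ℝ) ^ 2 + q * Real.log n ^ 2 ≤ ((n + 1 : ℕ) : ℝ) ^ 2 := by
  have h := (Real.isLittleO_pow_log_id_atTop (n := 2)).bound (show (0 : ℝ) < 1 / q by positivity)
  have h2 := tendsto_natCast_atTop_atTop (R := ℝ) |>.eventually h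
  filter_upwards [h2] with n hn
  simp only [id, Real.norm_eq_abs] at hn
  rw [abs_of_nonneg (by positivity), abs_of_nonneg (by positivity)] at hn
  have h3 : q * Real.log n ^ 2 ≤ n := by
    have := mul_le_mul_of_nonneg_left hn hq.le
    rwa [← mul_assoc, mul_one_div_cancel hq.ne', one_mul] at this
  have h4 : (0 : ℝ) ≤ n := Nat.cast_nonneg n
  push_cast
  nlinarith

theorem t_SQ (h1 : S_CONV) (h2 : S_DIV) : S_SQ := by
  intro Ω _ P A U hU hA
  have key1 : ∀ᵐ ω ∂P, ∀ q : ℚ, (2 : ℝ) < q → ∀ᶠ n : ℕ in atTop,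
      ω ∉ void A U ((n : ℝ) ^ 2) (q * Real.log n ^ 2) := by
    rw [ae_all_iff]
    intro q
    by_cases hq : (2 : ℝ) < q
    · have hq0 : (0 : ℝ) < q := by linarith
      have hε : 0 < ((q : ℝ) - 2) / (2 * q) := div_pos (by linarith) (by linarith)
      have h := h1 Ω P A 3 (((q : ℝ) - 2) / (2 * q)) U hU hA (by norm_num) hε
        (fun n : ℕ => (n : ℝ) ^ 2) (fun n : ℕ => q * Real.log n ^ 2) tendsto_sq (ev_y q hq0) (by
          refine (summable_congr_cofinite (exp_eq q _)).2 (Real.summable_nat_rpow.2 ?_)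
          have e : (1 - ((q : ℝ) - 2) / (2 * q)) * q / 2 = (q + 2) / 4 := by
            field_simp
            ring
          rw [e]
          linarith)
      filter_upwards [h] with ω hω _
      exact hω
    · exact Eventually.of_forall fun ω h => absurd h hq
  have key2 : ∀ᵐ ω ∂P, ∀ q : ℚ, (0 : ℝ) < q → (q : ℝ) < 2 → ∃ᶠ n : ℕ in atTop,
      ω ∈ void A U ((n : ℝ) ^ 2) (q * Real.log n ^ 2) := by
    rw [ae_all_iff]
    intro q
    by_cases hq : (0 : ℝ) < q ∧ (q : ℝ) < 2
    · obtain ⟨hq0, hq2⟩ := hq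
      have hε : 0 < (2 - (q : ℝ)) / q := div_pos (by linarith) hq0
      have h := h2 Ω P A 3 ((2 - (q : ℝ)) / q) U hU hA (by norm_num) hε
        (fun n : ℕ => (n : ℝ) ^ 2) (fun n : ℕ => q * Real.log n ^ 2) tendsto_sq (by
          filter_upwards [ev_y q hq0, ev_gap q hq0] with n hn hn'
          exact ⟨hn.1, hn.2, hn'⟩) (by
          intro hs
          have h3 := Real.summable_nat_rpow.1 ((summable_congr_cofinite (exp_eq q _)).1 hs)
          have e : (1 + (2 - (q : ℝ)) / q) * q / 2 = 1 := by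
            field_simp
            ring
          rw [e] at h3
          exact lt_irrefl _ h3)
      filter_upwards [h] with ω hω _ _
      exact hω
    · exact Eventually.of_forall fun ω h h' => absurd ⟨h, h'⟩ hq
  filter_upwards [key1, key2] with ω hω1 hω2
  refine ⟨fun c hc => ?_, fun c hc => ?_⟩
  · obtain ⟨q, hq1, hq2⟩ := exists_rat_btwn hc
    filter_upwards [hω1 q hq1] with n hn hn'
    exact hn (void_anti A U _ (mul_le_mul_of_nonneg_right hq2.le (sq_nonneg _)) hn')
  · obtain ⟨q, hq1, hq2⟩ := exists_rat_btwn (show max c 0 < 2 from max_lt hc (by norm_num))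
    refine (hω2 q ((le_max_right _ _).trans_lt hq1) hq2).mono fun n hn => ?_
    exact void_anti A U _ (mul_le_mul_of_nonneg_right ((le_max_left _ _).trans hq1.le)
      (sq_nonneg _)) hn

end Pool.Agent.U399.DP
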